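import Mathlib
import Pool.Agent.Y840.PT.Dense

set_option autoImplicit false

/-!
# Narrow progressions of quadruples of both shapes in short intervals

Let `D` be `{0, 2, 6, 8}` or `{0, 4, 6, 10}`. (1) Every interval `(Y, Y + X]`, `X ≥ Y ^ θ`, contains
`m`-term arithmetic progressions with difference at most `(log Y) ^ B` of integers `n` for which all
`n + h`, `h ∈ D`, are products of at most `r` primes; `r` depends on `θ` only, not on `m`. (2) Every
set of at least `ρ X / (log Y) ^ 4` integers `n` of such an interval for which no `n + h` has a prime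
factor `≤ Y ^ κ` (for instance such a set of `n` for which all `n + h` are prime) contains such
progressions.
-/

namespace Pool.Agent.Results.MP_092512_nt.NarrowProgressions

open Finset
open Pool.Agent.H387R2.Uni (CT nuT)

/-- both shapes have no local obstruction -/
lemma adm (D : Finset ℕ) (hD : D = {0, 2, 6, 8} ∨ D = {0, 4, 6, 10}) (p : ℕ) (hp : p.Prime) :
    nuT D p < p := by
  have hc : D.card = 4 := by rcases hD with rfl | rfl <;> rfl
  by_cases h5 : 5 ≤ p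
  · unfold nuT
    exact lt_of_le_of_lt card_image_le (by omega)
  · have h2 := hp.two_le
    have hp' : p = 2 ∨ p = 3 ∨ p = 4 := by omega
    rcases hp' with rfl | rfl | rfl
    · rcases hD with rfl | rfl <;> decide
    · rcases hD with rfl | rfl <;> decide
    · exact absurd hp (by decide)

lemma pos (D : Finset ℕ) (hD : D = {0, 2, 6, 8} ∨ D = {0, 4, 6, 10}) : 0 < CT D := by
  obtain ⟨c, hc, h⟩ := Pool.Agent.Y840.PT.SL_ge D.card
  have h2 := h (D.map Pool.Agent.Y840.PT.sh) (Pool.Agent.Y840.PT.prim_sh D) (by rw [card_map])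
    (fun p hp => by
      rw [Pool.Agent.Y840.PT.w_sh D hp.pos]; exact adm D hD p hp)
  rw [Pool.Agent.Y840.PT.SL_sh] at h2
  exact lt_of_lt_of_le hc h2

/-- number of prime factors of an integer without small prime factors -/
lemma few_factors {n Y : ℕ} {κ : ℝ} (hY : 2 ≤ Y) (hn0 : n ≠ 0) (hn : n ≤ Y ^ 2)
    (h : ∀ p : ℕ, p.Prime → p ∣ n → (Y : ℝ) ^ κ < p) :
    κ * (n.primeFactorsList.length : ℝ) ≤ 2 := by
  have hx1 : (1 : ℝ) < Y := by exact_mod_cast (by omega : 1 < Y)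
  have hx0 : (0 : ℝ) < Y := by linarith
  have h1 : ((Y : ℝ) ^ κ) ^ n.primeFactorsList.length ≤ n := by
    have h2 : ∀ L : List ℕ, (∀ p ∈ L, (Y : ℝ) ^ κ ≤ p) → ((Y : ℝ) ^ κ) ^ L.length ≤ (L.prod : ℕ) := by
      intro L
      induction L with
      | nil => intro _; simp
      | cons a L ih =>
        intro hL
        have i1 := ih (fun p hp => hL p (List.mem_cons_of_mem _ hp))
        have i2 := hL a List.mem_cons_self
        have i3 : (0 : ℝ) ≤ (Y : ℝ) ^ κ := by positivity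
        rw [List.length_cons, pow_succ, List.prod_cons, Nat.cast_mul, mul_comm]
        exact mul_le_mul i2 i1 (by positivity) (Nat.cast_nonneg _)
    have h3 := h2 n.primeFactorsList (fun p hp =>
      (h p (Nat.prime_of_mem_primeFactorsList hp) (Nat.dvd_of_mem_primeFactorsList hp)).le)
    rwa [Nat.prod_primeFactorsList hn0] at h3
  have h4 : ((Y : ℝ) ^ κ) ^ n.primeFactorsList.length ≤ (Y : ℝ) ^ (2 : ℕ) := by
    refine h1.trans ?_
    exact_mod_cast hn
  rw [← Real.rpow_natCast, ← Real.rpow_natCast, ← Real.rpow_mul hx0.le] at h4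
  have h5 := (Real.rpow_le_rpow_left_iff hx1).1 h4
  push_cast at h5
  exact h5

/-- Let `D` be one of the two shapes.  (1) For every `θ ∈ (0, 1]` there is `r` such that for every `m`
there are `B` and `Y₀` such that for all `Y ≥ Y₀` and `X ≥ Y ^ θ` there are `a` and
`1 ≤ d ≤ (log Y) ^ B` such that the `m` integers `n = a + j d`, `j < m`, are in `(Y, Y + X]` and each
`n + h`, `h ∈ D`, has at most `r` prime factors (with multiplicity).  (2) For all `θ ∈ (0, 1]`, `m` and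
`κ, ρ > 0` there are `B` and `Y₀` such that for all `Y ≥ Y₀` and `Y ^ θ ≤ X ≤ Y` every set
`U ⊆ (Y, Y + X]` of at least `ρ X / (log Y) ^ 4` integers `n` for which all prime factors of all
`n + h` are `> Y ^ κ` contains such a progression `a + j d ∈ U`, `j < m`. -/
theorem result (D : Finset ℕ) (hD : D = {0, 2, 6, 8} ∨ D = {0, 4, 6, 10})
    (θ : ℝ) (hθ : 0 < θ) (hθ1 : θ ≤ 1) :
    (∃ r : ℕ, ∀ m : ℕ, ∃ B Y₀ : ℕ, ∀ Y X : ℕ, Y₀ ≤ Y → (Y : ℝ) ^ θ ≤ X →
      ∃ a d : ℕ, 1 ≤ d ∧ (d : ℝ) ≤ Real.log Y ^ B ∧ ∀ j < m, a + j * d ∈ Ioc Y (Y + X) ∧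
        ∀ h ∈ D, (a + j * d + h).primeFactorsList.length ≤ r) ∧
    (∀ (m : ℕ) (κ ρ : ℝ), 0 < κ → 0 < ρ → ∃ B Y₀ : ℕ, ∀ Y X : ℕ, Y₀ ≤ Y → (Y : ℝ) ^ θ ≤ X → X ≤ Y →
      ∀ U : Finset ℕ, U ⊆ Ioc Y (Y + X) →
      (∀ n ∈ U, ∀ h ∈ D, ∀ p : ℕ, p.Prime → p ∣ n + h → (Y : ℝ) ^ κ < p) →
      ρ * (X / Real.log Y ^ 4) ≤ U.card →
      ∃ a d : ℕ, 1 ≤ d ∧ (d : ℝ) ≤ Real.log Y ^ B ∧ ∀ j < m, a + j * d ∈ U) := by
  have hc : D.card = 4 := by rcases hD with rfl | rfl <;> rfl
  have hD10 : ∀ h ∈ D, h ≤ 10 := by rcases hD with rfl | rfl <;> decide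
  have hpos := pos D hD
  have tN : Filter.Tendsto (fun N : ℕ => (N : ℝ)) Filter.atTop Filter.atTop :=
    tendsto_natCast_atTop_atTop
  have t1 : Filter.Tendsto (fun N : ℕ => (N : ℝ) ^ θ) Filter.atTop Filter.atTop :=
    (tendsto_rpow_atTop hθ).comp tN
  constructor
  · obtain ⟨κ, hκ, hal⟩ := Pool.Agent.Y840.PT.alm 4
    refine ⟨⌊2 / (θ / 2 * κ)⌋₊, fun m => ?_⟩
    obtain ⟨B, X₀, h2⟩ := hal m
    have t2 : Filter.Tendsto (fun N : ℕ => (N : ℝ) ^ (θ / 2)) Filter.atTop Filter.atTop :=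
      (tendsto_rpow_atTop (by positivity)).comp tN
    obtain ⟨Y₁, hY₁⟩ := Filter.eventually_atTop.1
      ((t1.eventually_ge_atTop ((X₀ : ℝ) + 1)).and (t2.eventually_ge_atTop 2))
    refine ⟨B, max Y₁ 12, fun Y X hY hX => ?_⟩
    obtain ⟨h3, h4⟩ := hY₁ Y ((le_max_left _ _).trans hY)
    have hY12 : 12 ≤ Y := (le_max_right _ _).trans hY
    have hY0 : (0 : ℝ) < Y := by exact_mod_cast (by omega : 0 < Y)
    have hY1 : (1 : ℝ) ≤ Y := by exact_mod_cast (by omega : 1 ≤ Y)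
    set X' : ℕ := ⌊(Y : ℝ) ^ θ⌋₊ with hX'
    have hX'1 : (X' : ℝ) ≤ (Y : ℝ) ^ θ := Nat.floor_le (by positivity)
    have hX'2 : (Y : ℝ) ^ θ < X' + 1 := Nat.lt_floor_add_one _
    have hX'X : X' ≤ X := by
      have : (X' : ℝ) ≤ X := hX'1.trans hX
      exact_mod_cast this
    have hX'Y : (X' : ℝ) ≤ Y := by
      refine hX'1.trans ?_
      calc (Y : ℝ) ^ θ ≤ (Y : ℝ) ^ (1 : ℝ) := Real.rpow_le_rpow_of_exponent_le hY1 hθ1
        _ = Y := Real.rpow_one _
    have hXX : X₀ ≤ X' := by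
      have : (X₀ : ℝ) < X' + 1 := by linarith
      have : X₀ < X' + 1 := by exact_mod_cast this
      omega
    have hXlow : (Y : ℝ) ^ (θ / 2) ≤ X' := by
      have e : (Y : ℝ) ^ θ = (Y : ℝ) ^ (θ / 2) * (Y : ℝ) ^ (θ / 2) := by
        rw [← Real.rpow_add hY0]; congr 1; ring
      rw [e] at hX'2
      nlinarith
    obtain ⟨a, d, h5, h6, h7⟩ := h2 X' Y hXX (D.map Pool.Agent.Y840.PT.sh)
      (Pool.Agent.Y840.PT.prim_sh D) (by rw [card_map, hc]) (fun p hp => by
        rw [Pool.Agent.Y840.PT.w_sh D hp.pos]; exact adm D hD p hp)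
    have hX'pos : (0 : ℝ) < X' := lt_of_lt_of_le (by positivity) hXlow
    have hlog : Real.log X' ≤ Real.log Y := Real.log_le_log hX'pos hX'Y
    have hlog0 : 0 ≤ Real.log (X' : ℝ) := Real.log_natCast_nonneg _
    refine ⟨a, d, h5, h6.trans (pow_le_pow_left₀ hlog0 hlog B), fun j hj => ?_⟩
    have hmem := mem_Ioc.1 (h7 j hj).1
    refine ⟨mem_Ioc.2 ⟨hmem.1, by omega⟩, fun h hh => ?_⟩
    apply Nat.le_floor
    rw [le_div_iff₀ (by positivity), mul_comm]
    apply few_factors (Y := Y) (by omega) (by omega)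
    · have h8 : a + j * d ≤ Y + X' := hmem.2
      have h9 : X' ≤ Y := by exact_mod_cast hX'Y
      have h10 := hD10 h hh
      nlinarith
    · intro p hp hd
      have h8 := (h7 j hj).2 (Pool.Agent.Y840.PT.sh h) (mem_map_of_mem _ hh) p hp (by
        change p ∣ 1 * (a + j * d) + h
        rwa [one_mul])
      refine lt_of_le_of_lt ?_ h8
      calc (Y : ℝ) ^ (θ / 2 * κ) = ((Y : ℝ) ^ (θ / 2)) ^ κ := by rw [Real.rpow_mul hY0.le]
        _ ≤ (X' : ℝ) ^ κ := Real.rpow_le_rpow (by positivity) hXlow hκ.le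
  · intro m κ ρ hκ hρ
    obtain ⟨B, X₀, h⟩ := Pool.Agent.Y840.PT.sh_gen m 4 κ (ρ * θ ^ 4 / CT D) hκ (by positivity)
    obtain ⟨Y₁, hY₁⟩ := Filter.eventually_atTop.1 (t1.eventually_ge_atTop ((X₀ : ℝ) + 2))
    refine ⟨B, max Y₁ 2, fun Y X hY hX hXY U hU hfree hcard => ?_⟩
    have h3 := hY₁ Y ((le_max_left _ _).trans hY)
    have hY2 : 2 ≤ Y := (le_max_right _ _).trans hY
    have hY0 : (0 : ℝ) < Y := by exact_mod_cast (by omega : 0 < Y)
    have hX2 : (X₀ : ℝ) + 2 ≤ X := h3.trans hX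
    have hX0 : (0 : ℝ) ≤ X₀ := Nat.cast_nonneg _
    have hXpos : (0 : ℝ) < X := by linarith
    have hXX : X₀ ≤ X := by
      have : (X₀ : ℝ) ≤ X := by linarith
      exact_mod_cast this
    have hXYr : (X : ℝ) ≤ Y := by exact_mod_cast hXY
    have hlogX : 0 < Real.log X := Real.log_pos (by linarith)
    have hlogY : 0 < Real.log Y := Real.log_pos (by exact_mod_cast (by omega : 1 < Y))
    have hlow : θ * Real.log Y ≤ Real.log X := by
      rw [← Real.log_rpow hY0]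
      exact Real.log_le_log (by positivity) hX
    have hlog : Real.log X ≤ Real.log Y := Real.log_le_log hXpos hXYr
    obtain ⟨a, d, h5, h6, h7⟩ := h X Y hXX D hc hpos U hU (by
      intro n hn t ht p hp hd
      refine lt_of_le_of_lt ?_ (hfree n hn t ht p hp hd)
      exact Real.rpow_le_rpow hXpos.le hXYr hκ.le) (by
      refine le_trans ?_ hcard
      have h8 : (X : ℝ) / Real.log X ^ 4 ≤ X / (θ * Real.log Y) ^ 4 := by
        apply div_le_div_of_nonneg_left hXpos.le (by positivity)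
        exact pow_le_pow_left₀ (by positivity) hlow 4
      calc ρ * θ ^ 4 / CT D * (CT D * (X / Real.log X ^ 4))
          ≤ ρ * θ ^ 4 / CT D * (CT D * (X / (θ * Real.log Y) ^ 4)) := by gcongr
        _ = ρ * (X / Real.log Y ^ 4) := by
            rw [mul_pow]
            field_simp)
    exact ⟨a, d, h5, h6.trans (pow_le_pow_left₀ hlogX.le hlog B), h7⟩

end Pool.Agent.Results.MP_092512_nt.NarrowProgressions
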