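import Pool.Agent.Y879.PR.HLc

set_option autoImplicit false

/-!
Quadruples of both shapes `n, n + 2, n + 6, n + 8` and `n, n + 4, n + 6, n + 10` with one chosen member an
ACTUAL prime and the other three almost prime: the asymptotic number, with the Hardy-Littlewood constant `E` for
the first and `2 E` for the second shape and for each choice of the prime member, and the Poisson law of the
quadruples which follow such a quadruple.
-/

namespace Pool.Agent.Results.MP_092512_nt.QuadruplesAtPrimes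

open Finset Filter
open Pool.Agent.Y879.PR

/-- the shifts of the two shapes: `0, 2, 6, 8` and `0, 4, 6, 10` -/
def sh (s : Bool) : Fin 4 → ℕ := if s then ![0, 2, 6, 8] else ![0, 4, 6, 10]

/-- the number of admissible classes modulo `30` of the two shapes -/
def mult (s : Bool) : ℕ := if s then 1 else 2

/-- no `n + sh s i` has a prime factor `p ≤ N ^ (1 / r)` -/
def Good (s : Bool) (N r n : ℕ) : Prop :=
  ∀ p : ℕ, p.Prime → (p : ℝ) ≤ (N : ℝ) ^ (1 / (r : ℝ)) → ∀ i, ¬ p ∣ n + sh s i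

/-- `0` for `p = 2, 3, 5`, otherwise `4` -/
def nu (p : ℕ) : ℕ := if p ∣ 30 then 0 else 4

/-- the density of the good numbers in an admissible class modulo `30`: the product of `1 - 4 / p` over the
primes `5 < p ≤ N ^ (1 / r)` -/
noncomputable def V (N r : ℕ) : ℝ :=
  ∏ p ∈ (Icc 1 ⌊(N : ℝ) ^ (1 / (r : ℝ))⌋₊).filter Nat.Prime, (1 - (nu p : ℝ) / p)

/-- `V` divided by the product of `1 - 1 / p` over the primes `p ≤ N ^ (1 / r)` -/
noncomputable def W (N r : ℕ) : ℝ :=
  ∏ p ∈ (Icc 1 ⌊(N : ℝ) ^ (1 / (r : ℝ))⌋₊).filter Nat.Prime, (1 - (nu p : ℝ) / p) / (1 - 1 / (p : ℝ))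

open Classical in
/-- the good `n` in `(A, A + L]` for which `n + sh s i` is PRIME -/
noncomputable def Pr (s : Bool) (N r : ℕ) (i : Fin 4) (A L : ℕ) : Finset ℕ :=
  (Ioc A (A + L)).filter (fun n => (n + sh s i).Prime ∧ Good s N r n)

open Classical in
/-- the number of the good `l` in `(n, n + 30 T]` with `l = n` modulo `30` -/
noncomputable def Next (s : Bool) (N r T n : ℕ) : ℕ :=
  ((Ioc n (n + 30 * T)).filter (fun l => l % 30 = n % 30 ∧ Good s N r l)).card

/-- **Both shapes of quadruples, with an actual prime at a chosen place.** Let `C` be the limit of the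
products of `p ^ 3 (p - 4) / (p - 1) ^ 4` over the primes `3 < p < N`, so that `E = (27 / 2) C` is the
Hardy-Littlewood constant of the quadruples. For all `θ > 0`, `0 < δ ≤ 1`, `0 < ε ≤ 1` and `x₀` there is `r₀`
such that for every `r ≥ r₀` and all large `N`, for both shapes: (1) every `n > N ^ (1 / r)` for which all four
`n + sh s i` are prime is good; (2) if `n ≤ N` is good, then each `n + sh s i` has at most `r` prime factors;
(3) for each `i` the number of the good `n ≤ N` with `n + sh s i` PRIME is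
`(1 + η) mult s E (r e ^ (-γ)) ^ 3 N / log N ^ 4` with `|η| ≤ ε`, so twice as large for the second shape;
(4) if `X ≥ N ^ θ`, `L ≥ δ X` and `A + L ≤ X`, then for each `i` the number of the good `n` in `(A, A + L]` with
`n + sh s i` PRIME is `(1 + η) mult s (L / 30) W / log X`, `|η| ≤ ε`, and at these `n` the number of the good
numbers in `(n, n + 30 T]` in the residue class of `n` modulo `30` has the Poisson law of mean `T V`, up to
`ε`, for all `T` with `T V ≤ x₀`. -/
theorem result : ∃ C : ℝ, 0 < C ∧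
    Tendsto (fun N : ℕ => ∏ p ∈ (Finset.range N).filter (fun p => p.Prime ∧ 3 < p),
      ((p : ℝ) ^ 3 * ((p : ℝ) - 4) / ((p : ℝ) - 1) ^ 4)) atTop (nhds C) ∧
    ∀ θ δ x₀ ε : ℝ, 0 < θ → 0 < δ → δ ≤ 1 → 0 < ε → ε ≤ 1 →
    ∃ r₀ : ℕ, ∀ r : ℕ, r₀ ≤ r → ∃ N₀ : ℕ, ∀ N : ℕ, N₀ ≤ N → ∀ s : Bool,
      (∀ n : ℕ, (N : ℝ) ^ (1 / (r : ℝ)) < n → (∀ i, (n + sh s i).Prime) → Good s N r n) ∧
      (∀ n : ℕ, n ≤ N → Good s N r n → ∀ i, (n + sh s i).primeFactorsList.length ≤ r) ∧
      (∀ i : Fin 4, |((Pr s N r i 0 N).card : ℝ) * Real.log N ^ 4 / N -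
          mult s * (27 / 2 * C) * (r * Real.exp (-Real.eulerMascheroniConstant)) ^ 3| ≤
        ε * (mult s * (27 / 2 * C) * (r * Real.exp (-Real.eulerMascheroniConstant)) ^ 3)) ∧
      0 < W N r ∧
      ∀ (i : Fin 4) (X : ℕ), (N : ℝ) ^ θ ≤ X → ∀ A L : ℕ, δ * X ≤ L → A + L ≤ X →
        |((Pr s N r i A L).card : ℝ) * Real.log X - mult s * (L / 30 * W N r)| ≤
          ε * (mult s * (L / 30 * W N r)) ∧
        ∀ T : ℕ, T * V N r ≤ x₀ → ∀ B : Finset ℕ,
          |(((Pr s N r i A L).filter (fun n => Next s N r T n ∈ B)).card : ℝ) -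
            (Pr s N r i A L).card *
              ∑ j ∈ B, Real.exp (-(T * V N r)) * (T * V N r) ^ j / j.factorial| ≤
            ε * (Pr s N r i A L).card := by
  obtain ⟨S, hS0, hS⟩ := HF_lim 4 (Or.inr rfl)
  refine ⟨S, hS0, ?_, ?_⟩
  · refine hS.congr ?_
    intro N
    unfold HF
    apply Finset.prod_congr rfl
    intro p hp
    simp only [Finset.mem_filter] at hp
    have h3 : (3 : ℝ) < p := by exact_mod_cast hp.2.2
    unfold hf
    rw [Nat.cast_ofNat]
    have h0 : (p : ℝ) ≠ 0 := by positivity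
    have h1 : (p : ℝ) - 1 ≠ 0 := by linarith
    field_simp
  intro θ δ x₀ ε hθ hδ hδ1 hε hε1
  have both : ∀ s : Bool, ∃ C : Finset ℕ, C.card = mult s ∧ Pat2 30 (sh s) C := by
    intro s
    cases s
    · exact ⟨{7, 13}, rfl, pat_qb⟩
    · exact ⟨{11}, rfl, pat_qa⟩
  have one : ∀ s : Bool, ∃ r₀ : ℕ, ∀ r : ℕ, r₀ ≤ r → ∃ N₀ : ℕ, ∀ N : ℕ, N₀ ≤ N →
      (∀ n : ℕ, (N : ℝ) ^ (1 / (r : ℝ)) < n → (∀ i, (n + sh s i).Prime) → Good s N r n) ∧
      (∀ n : ℕ, n ≤ N → Good s N r n → ∀ i, (n + sh s i).primeFactorsList.length ≤ r) ∧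
      (∀ i : Fin 4, |((Pr s N r i 0 N).card : ℝ) * Real.log N ^ 4 / N -
          mult s * (27 / 2 * S) * (r * Real.exp (-Real.eulerMascheroniConstant)) ^ 3| ≤
        ε * (mult s * (27 / 2 * S) * (r * Real.exp (-Real.eulerMascheroniConstant)) ^ 3)) ∧
      0 < W N r ∧
      ∀ (i : Fin 4) (X : ℕ), (N : ℝ) ^ θ ≤ X → ∀ A L : ℕ, δ * X ≤ L → A + L ≤ X →
        |((Pr s N r i A L).card : ℝ) * Real.log X - mult s * (L / 30 * W N r)| ≤
          ε * (mult s * (L / 30 * W N r)) ∧
        ∀ T : ℕ, T * V N r ≤ x₀ → ∀ B : Finset ℕ,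
          |(((Pr s N r i A L).filter (fun n => Next s N r T n ∈ B)).card : ℝ) -
            (Pr s N r i A L).card *
              ∑ j ∈ B, Real.exp (-(T * V N r)) * (T * V N r) ^ j / j.factorial| ≤
            ε * (Pr s N r i A L).card := by
    intro s
    obtain ⟨C, hC2, hP⟩ := both s
    have hm : 0 < mult s := by cases s <;> norm_num [mult]
    have hCne : C.Nonempty := Finset.card_pos.1 (by omega)
    obtain ⟨r1, -, hlaw⟩ := pat_main hP hCne θ δ hθ hδ hδ1 x₀ ε hε hε1
    obtain ⟨r2, -, hform⟩ := hl_form hP hCne (Or.inr rfl) S hS0 hS ε hε hε1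
    refine ⟨max r1 r2, ?_⟩
    intro r hr
    obtain ⟨N1, hN1⟩ := hlaw r ((le_max_left _ _).trans hr)
    obtain ⟨N2, hN2⟩ := eventually_atTop.1 (hform r ((le_max_right _ _).trans hr))
    refine ⟨max N1 N2, ?_⟩
    intro N hN
    obtain ⟨h1, h2, h3, h4, h5, h6⟩ := hN1 N ((le_max_left _ _).trans hN)
    have h7 := hN2 N ((le_max_right _ _).trans hN)
    refine ⟨h2, h1, ?_, h3, ?_⟩
    · intro i
      have h8 := h7 i
      rw [hC2] at h8
      have e : ((mult s : ℕ) : ℝ) / 30 * (3 ^ 4 * (5 / (5 - ((4 : ℕ) : ℝ))) * S *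
          (r * Real.exp (-Real.eulerMascheroniConstant)) ^ (4 - 1)) =
          mult s * (27 / 2 * S) * (r * Real.exp (-Real.eulerMascheroniConstant)) ^ 3 := by
        norm_num
        ring
      rw [e] at h8
      exact h8
    · intro i X hX A L hL hAL
      obtain ⟨h8, h9⟩ := h6 i X hX A L hL hAL
      refine ⟨?_, h9⟩
      have e : ((C.card : ℕ) : ℝ) * ((L : ℝ) / ((30 : ℕ) : ℝ) * PW 30 4 N r) =
          mult s * (L / 30 * W N r) := by
        rw [hC2]
        have : PW 30 4 N r = W N r := rfl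
        rw [this]
        push_cast
        ring
      rw [e] at h8
      exact h8
  obtain ⟨r1, h1⟩ := one true
  obtain ⟨r2, h2⟩ := one false
  refine ⟨max r1 r2, ?_⟩
  intro r hr
  obtain ⟨N1, g1⟩ := h1 r ((le_max_left _ _).trans hr)
  obtain ⟨N2, g2⟩ := h2 r ((le_max_right _ _).trans hr)
  refine ⟨max N1 N2, ?_⟩
  intro N hN s
  cases s
  · exact g2 N ((le_max_right _ _).trans hN)
  · exact g1 N ((le_max_left _ _).trans hN)

end Pool.Agent.Results.MP_092512_nt.QuadruplesAtPrimes
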