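import Pool.Agent.Y829.G4

set_option autoImplicit false

/-!
# The Hardy-Littlewood proportion of sifted `r`-tuples in polylogarithmic windows, for every sieve weight

Author: helper829. Maier's theorem says that the Hardy-Littlewood prediction fails in some windows of length
`(log x)^A`, for every fixed `A`: the relative error is a positive constant depending on `A`. The windows are
found with a sieve weight (the indicator of one residue class modulo a product of small primes). We bound what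
any nonnegative sieve weight can do, for `r`-tuples, uniformly in the shifts: in windows of length
`(log Q)^(C b)` the weighted mean of the number of tuples free of the primes of `P` differs from the
Hardy-Littlewood proportion by a factor `1 + O(2^(-b))` only, and so does the number of these tuples for all `n`
but a weighted proportion `exp(-U^(1/(C b)))`.

Proof: fundamental lemma (helper882) in every window for the primes up to `U^(1/(C' b))`, exponential moments (both
tails) for the larger primes, and the bound `w ≤ Q^2 mean(w)` for nonnegative weights of level `Q`.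
-/

open Finset

namespace Pool.Agent.Results.MP_092512_nt.SieveWeightsSeeTuples

/-- `w` has level `Q`: it is a sum of functions of periods `1, ..., Q` -/
def HasLevel (Q : ℕ) (w : ℕ → ℝ) : Prop :=
  ∃ f : ℕ → ℕ → ℝ, (∀ d n, f d (n + d) = f d n) ∧ ∀ n, w n = ∑ d ∈ Icc 1 Q, f d n

open Classical in
/-- the residue classes `x` modulo `p` for which some `x + a_i` is divisible by `p` -/
noncomputable def classes {r : ℕ} (a : Fin r → ℤ) (p : ℕ) : Finset ℕ :=
  (range p).filter (fun x : ℕ => ∃ i, (p : ℤ) ∣ (x : ℤ) + a i)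

/-- `ν_p`, the number of residue classes occupied by `-a_1, ..., -a_r` (or `a_1, ..., a_r`) modulo `p` -/
noncomputable def nu {r : ℕ} (a : Fin r → ℤ) (p : ℕ) : ℕ := (classes a p).card

open Classical in
/-- the number of `m` with `n < m ≤ n + U` such that no prime of `P` divides one of `m + a_1, ..., m + a_r` -/
noncomputable def tuples {r : ℕ} (a : Fin r → ℤ) (P : Finset ℕ) (U n : ℕ) : ℝ :=
  (((Ioc n (n + U)).filter (fun m : ℕ => ∀ p ∈ P, ∀ i, ¬ (p : ℤ) ∣ (m : ℤ) + a i)).card : ℝ)

/-- the Hardy-Littlewood prediction `U ∏_{p ∈ P} (1 - ν_p / p)` -/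
noncomputable def prediction {r : ℕ} (a : Fin r → ℤ) (P : Finset ℕ) (U : ℕ) : ℝ :=
  U * ∏ p ∈ P, (1 - (nu a p : ℝ) / p)

lemma tuples_eq {r : ℕ} (a : Fin r → ℤ) (P : Finset ℕ) (hP : ∀ p ∈ P, p.Prime) (U n : ℕ) :
    tuples a P U n = Pool.Agent.Y829.SO (classes a) P U n := by
  classical
  unfold tuples Pool.Agent.Y829.SO
  have h1 := Pool.Agent.Y829.shiftc n U (fun m : ℕ => ∀ p ∈ P, ∀ i, ¬ (p : ℤ) ∣ (m : ℤ) + a i)
  have h2 : Ico (n + 1) (n + U + 1) = Ioc n (n + U) := by
    ext m
    rw [mem_Ico, mem_Ioc]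
    omega
  rw [h2] at h1
  have key : ∀ p ∈ P, ∀ h : ℕ, ((∀ i, ¬ (p : ℤ) ∣ ((n + h : ℕ) : ℤ) + a i) ↔ (n + h) % p ∉ classes a p) := by
    intro p hp h
    have e : ∀ i, ((p : ℤ) ∣ (((n + h) % p : ℕ) : ℤ) + a i ↔ (p : ℤ) ∣ ((n + h : ℕ) : ℤ) + a i) := by
      intro i
      have h3 : ((n + h : ℕ) : ℤ) = (((n + h) % p : ℕ) : ℤ) + p * (((n + h) / p : ℕ) : ℤ) := by
        exact_mod_cast (Nat.mod_add_div (n + h) p).symm
      rw [h3, add_right_comm]
      constructor
      · intro h4
        exact dvd_add h4 (Dvd.intro _ rfl)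
      · intro h4
        exact (dvd_add_left (Dvd.intro _ rfl)).1 h4
    unfold classes
    rw [mem_filter, mem_range, not_and, not_exists]
    constructor
    · intro h3 _ i h4
      exact h3 i ((e i).1 h4)
    · intro h3 i h4
      exact h3 (Nat.mod_lt _ (hP p hp).pos) i ((e i).2 h4)
  have h3 : (Icc 1 U).filter (fun h : ℕ => ∀ p ∈ P, ∀ i, ¬ (p : ℤ) ∣ ((n + h : ℕ) : ℤ) + a i) =
      (Icc 1 U).filter (fun h => ∀ p ∈ P, (n + h) % p ∉ classes a p) := by
    apply filter_congr
    intro h _
    constructor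
    · intro h3 p hp
      exact (key p hp h).1 (h3 p hp)
    · intro h3 p hp
      exact (key p hp h).2 (h3 p hp)
  rw [h3] at h1
  exact congrArg Nat.cast h1.symm

lemma nu_le {r : ℕ} (a : Fin r → ℤ) (p : ℕ) : nu a p ≤ r := by
  classical
  unfold nu classes
  have h1 : (range p).filter (fun x : ℕ => ∃ i, (p : ℤ) ∣ (x : ℤ) + a i) ⊆
      (univ : Finset (Fin r)).biUnion (fun i => (range p).filter (fun x : ℕ => (p : ℤ) ∣ (x : ℤ) + a i)) := by
    intro x hx
    rw [mem_filter] at hx
    obtain ⟨hx1, i, hi⟩ := hx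
    rw [mem_biUnion]
    exact ⟨i, mem_univ _, mem_filter.2 ⟨hx1, hi⟩⟩
  refine (card_le_card h1).trans (card_biUnion_le.trans ?_)
  have h2 : ∀ i ∈ (univ : Finset (Fin r)), ((range p).filter (fun x : ℕ => (p : ℤ) ∣ (x : ℤ) + a i)).card ≤ 1 := by
    intro i _
    rw [card_le_one]
    intro x hx y hy
    rw [mem_filter, mem_range] at hx hy
    have h3 : (p : ℤ) ∣ (y : ℤ) - x := by
      have := dvd_sub hy.2 hx.2
      have e : (y : ℤ) + a i - (x + a i) = y - x := by ring
      rwa [e] at this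
    have h5 : x ≡ y [MOD p] := (Nat.modEq_iff_dvd).2 h3
    exact Nat.ModEq.eq_of_lt_of_lt h5 hx.1 hy.1
  refine (sum_le_sum h2).trans ?_
  simp

/-- For every `r` there is `C` such that for every `b ≥ C` and `U ≥ U₁(b)`, every nonnegative weight `w` of level
`Q`, `log Q ≤ U^(1/(C b))`, every finite set `P` of primes and all integers `a_1, ..., a_r` with `ν_p < p` for the
primes of `P`: the `w`-weighted mean of the number of tuples free of the primes of `P` in the windows
`(n, n + U]` is within a factor `1 ± 2^(-b)` of the prediction; and if the primes of `P` are at most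
`exp(U^(1/(C b)))`, then the number of tuples in `(n, n + U]` is within this factor of the prediction for all `n`
but a `w`-weighted proportion `exp(-U^(1/(C b)))`. Means are taken over a period `N`. -/
theorem result (r : ℕ) : ∃ C : ℕ, 1 ≤ C ∧ ∀ b : ℕ, C ≤ b → ∃ U₁ : ℕ, ∀ (U Q N : ℕ) (w : ℕ → ℝ)
    (P : Finset ℕ) (a : Fin r → ℤ), U₁ ≤ U → 1 ≤ Q → Real.log Q ≤ (U : ℝ) ^ (1 / ((C : ℝ) * b)) →
    0 < N → (∀ d ∈ Icc 1 Q, d ∣ N) → (∀ n, 0 ≤ w n) → HasLevel Q w → (∀ p ∈ P, p.Prime ∧ p ∣ N) →
    (∀ p ∈ P, nu a p < p) →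
    |∑ n ∈ range N, w n * tuples a P U n - prediction a P U * ∑ n ∈ range N, w n| ≤
      (1 / 2) ^ b * (prediction a P U * ∑ n ∈ range N, w n) ∧
    ((∀ p ∈ P, Real.log p ≤ (U : ℝ) ^ (1 / ((C : ℝ) * b))) →
      ∑ n ∈ (range N).filter (fun n => (1 / 2) ^ b * prediction a P U < |tuples a P U n - prediction a P U|), w n ≤
        Real.exp (-(U : ℝ) ^ (1 / ((C : ℝ) * b))) * ∑ n ∈ range N, w n) := by
  classical
  obtain ⟨C, hC, hmain⟩ := Pool.Agent.Y829.main2 r
  refine ⟨C, hC, fun b hb => ?_⟩
  obtain ⟨U₁, h1⟩ := hmain b hb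
  refine ⟨U₁, ?_⟩
  intro U Q N w P a hU hQ hlog hN hdN hw0 hw hP hnu
  have h2 := h1 U Q N P (classes a) w hU hQ hlog hN hdN hw0 hw hP
    (fun p hp => ⟨filter_subset _ _, nu_le a p, hnu p hp⟩)
  have e1 : ∀ n, tuples a P U n = Pool.Agent.Y829.SO (classes a) P U n :=
    fun n => tuples_eq a P (fun p hp => (hP p hp).1) U n
  have e2 : prediction a P U = U * Pool.Agent.Y829.VO (classes a) P := rfl
  simp only [e1, e2]
  exact h2

end Pool.Agent.Results.MP_092512_nt.SieveWeightsSeeTuples
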